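import Pool.Agent.W845.GL.Stm

set_option autoImplicit false

namespace Pool.Agent.W987.GL

open Filter MeasureTheory Finset Pool.Agent.W845.GL
open scoped Classical Topology

noncomputable section

theorem mu_univ : mu Set.univ = 1 := by
  unfold mu
  rw [Measure.restrict_apply MeasurableSet.univ, Set.univ_inter, Real.volume_Icc]
  norm_num

instance instProbMu : IsProbabilityMeasure mu := ⟨mu_univ⟩

theorem integrable_toReal_and {α : Type} [MeasurableSpace α] (ν : Measure α) (f : α → ENNReal)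
    (hf : Measurable f) (c : ℝ) (hc : 0 ≤ c) (h : ∫⁻ x, f x ∂ν = ENNReal.ofReal c) :
    Integrable (fun x => (f x).toReal) ν ∧ ∫ x, (f x).toReal ∂ν = c := by
  have hne : ∫⁻ x, f x ∂ν ≠ ⊤ := by rw [h]; exact ENNReal.ofReal_ne_top
  refine ⟨integrable_toReal_of_lintegral_ne_top hf.aemeasurable hne, ?_⟩
  rw [integral_toReal hf.aemeasurable (ae_lt_top hf hne), h, ENNReal.toReal_ofReal hc]

theorem ki : S_T3 → S_K1 → S_K2 → S_KI := by
  intro hT3 hK1 hK2 κ hκm hκ0 hM
  set D : ℝ → ENNReal := fun x => ∫⁻ y, ENNReal.ofReal (κ x y) ∂mu with hD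
  have hofm : Measurable (fun z : ℝ × ℝ => ENNReal.ofReal (κ z.1 z.2)) :=
    ENNReal.measurable_ofReal.comp hκm
  have hDm : Measurable D := by
    rw [hD]
    exact Measurable.lintegral_prod_right' (ν := mu) hofm
  have hdg : ∀ x, dg κ x = (D x).toReal := by
    intro x
    unfold dg
    rw [integral_eq_lintegral_of_nonneg_ae (Eventually.of_forall (fun y => hκ0 x y))]
    have : Measurable (fun y => κ x y) := hκm.comp measurable_prodMk_left
    exact this.aestronglyMeasurable
  have h1 : ∀ m : ℕ, ∫⁻ x, D x ^ m ∂mu = ENNReal.ofReal (cc (Star m)) := by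
    intro m
    have e1 := hK1 κ hκm m
    have e2 := hM (m + 1) (Star m)
    rw [← e2, e1]
  have h2 : ∀ l m : ℕ, ∫⁻ z : ℝ × ℝ, ENNReal.ofReal (κ z.1 z.2) * D z.1 ^ l * D z.2 ^ m
      ∂(mu.prod mu) = ENNReal.ofReal (cc (DStar l m)) := by
    intro l m
    have e1 := hK2 κ hκm l m
    have e2 := hM (l + m + 2) (DStar l m)
    have hmeas : Measurable (fun z : ℝ × ℝ => ENNReal.ofReal (κ z.1 z.2) * D z.1 ^ l * D z.2 ^ m) :=
      (hofm.mul ((hDm.comp measurable_fst).pow_const l)).mul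
        ((hDm.comp measurable_snd).pow_const m)
    rw [lintegral_prod _ hmeas.aemeasurable, ← e2, e1]
  have hmom1 : ∀ m : ℕ, Integrable (fun x => dg κ x ^ m) mu ∧
      ∫ x, dg κ x ^ m ∂mu = cc (Star m) := by
    intro m
    have := integrable_toReal_and mu (fun x => D x ^ m) (hDm.pow_const m) (cc (Star m))
      (hT3 (m + 1) (Star m)).1 (h1 m)
    have e : (fun x => (D x ^ m).toReal) = fun x => dg κ x ^ m := by
      funext x
      rw [ENNReal.toReal_pow, hdg x]
    have e' : ∀ x, (D x ^ m).toReal = dg κ x ^ m := fun x => congrFun e x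
    simp only [e'] at this
    exact this
  have hmom2 : ∀ l m : ℕ,
      Integrable (fun z : ℝ × ℝ => κ z.1 z.2 * dg κ z.1 ^ l * dg κ z.2 ^ m) (mu.prod mu) ∧
      ∫ z : ℝ × ℝ, κ z.1 z.2 * dg κ z.1 ^ l * dg κ z.2 ^ m ∂(mu.prod mu) = cc (DStar l m) := by
    intro l m
    have hmeas : Measurable (fun z : ℝ × ℝ => ENNReal.ofReal (κ z.1 z.2) * D z.1 ^ l * D z.2 ^ m) :=
      (hofm.mul ((hDm.comp measurable_fst).pow_const l)).mul
        ((hDm.comp measurable_snd).pow_const m)
    have := integrable_toReal_and (mu.prod mu)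
      (fun z : ℝ × ℝ => ENNReal.ofReal (κ z.1 z.2) * D z.1 ^ l * D z.2 ^ m) hmeas
      (cc (DStar l m)) (hT3 (l + m + 2) (DStar l m)).1 (h2 l m)
    have e' : ∀ z : ℝ × ℝ, (ENNReal.ofReal (κ z.1 z.2) * D z.1 ^ l * D z.2 ^ m).toReal
        = κ z.1 z.2 * dg κ z.1 ^ l * dg κ z.2 ^ m := by
      intro z
      rw [ENNReal.toReal_mul, ENNReal.toReal_mul, ENNReal.toReal_pow, ENNReal.toReal_pow,
        ENNReal.toReal_ofReal (hκ0 z.1 z.2), hdg z.1, hdg z.2]
    simp only [e'] at this
    exact this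
  refine ⟨?_, ?_, hmom1, hmom2⟩
  · have e : dg κ = fun x => (D x).toReal := funext hdg
    rw [e]
    exact hDm.ennreal_toReal
  · have := (hmom2 0 0).1
    simpa using this

end

end Pool.Agent.W987.GL
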